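import Pool.Agent.Helper17.SO.Stmts

/-!
Module DES of project SO (helper17): a symmetric design with the required automorphisms gives
the arithmetic conditions.
-/

set_option autoImplicit false

open Finset

namespace Pool.Agent.Helper17.SO

theorem st_DES (hI : ST_INC) (hS : ST_SCH) (hBP : ST_BPERM) (hC : ST_CIRC) (hSC : ST_SELFC)
    (hBR : ST_BRC) : ST_DES := by
  intro lam W v k B hlam hk hkv hD hg
  obtain ⟨hlk, heq, hAA, hrow, hcol⟩ := hI v k lam B hlam hk hkv hD
  obtain ⟨n, hn⟩ : ∃ n, k = n + lam := ⟨k - lam, by omega⟩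
  have hn1 : 1 ≤ n := by omega
  have hkk : k * k = n + lam * v := by omega
  have hAA' : inc B * (inc B).transpose = (n : ℤ) • (1 : Matrix (Fin v) (Fin v) ℤ) +
      (lam : ℤ) • Matrix.of (fun _ _ => (1 : ℤ)) := by
    rw [hAA]
    have : ((k : ℤ) - lam) = (n : ℤ) := by rw [hn]; push_cast; ring
    rw [this]
  rcases Nat.even_or_odd v with hv | hv
  · left
    obtain ⟨r, hr⟩ := hS v k n lam (inc B) hn1 hk hkk hv (by omega) hAA'
    exact ⟨r, by rw [hn, hr]⟩
  · right
    refine ⟨(-1) ^ ((v - 1) / 2), neg_one_pow_eq_or ℤ _, v, n, hn, hn1, heq, hv, rfl, ?_, ?_⟩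
    · intro q p hq hp hWq hlq hqv hpq hodd f hf
      obtain ⟨g, hg1, hg2, hg3⟩ := hg q hq hWq hqv
      obtain ⟨π, hπ1, hπ2, hπ3⟩ := hBP v k lam q B hlam hk hkv hD hq hlq hqv g hg1 hg2 hg3
      have hq2 : q ≠ 2 := by
        intro h
        rw [h] at hqv
        exact (Nat.not_even_iff_odd.2 hv) (even_iff_two_dvd.2 hqv)
      have hinv : ∀ a i, inc B (g a) (π i) = inc B a i := by
        intro a i
        simp only [inc, Matrix.of_apply, hπ3]
      obtain ⟨r, hr, y, hy, hyy⟩ := hC v n lam q (inc B) g π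
        (Complex.exp (2 * Real.pi * Complex.I / q)) hq
        (Complex.isPrimitiveRoot_exp q hq.ne_zero) hg1 hπ1 hg2 hπ2 hinv hAA'
      have hyy' : y * (starRingEnd ℂ) y = ((n ^ r : ℕ) : ℂ) := by
        rw [hyy]; push_cast; rfl
      have hev := hSC q p f (n ^ r) _ y hq hq2 hp hpq hf
        (Complex.isPrimitiveRoot_exp q hq.ne_zero) hy (Nat.one_le_pow _ _ hn1) hyy'
      rw [Nat.factorization_pow, Finsupp.smul_apply, smul_eq_mul] at hev
      have hrodd : Odd r := by
        rw [hr] at hv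
        exact (Nat.odd_mul.1 hv).2
      exact (Nat.not_even_iff_odd.2 (hrodd.mul hodd)) hev
    · intro p hp hp2 hpl hfac
      exact hBR v k n lam p (inc B) hn1 hk hv hkk hAA' hrow hcol hp hp2 hpl hfac

end Pool.Agent.Helper17.SO
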